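import Pool.Agent.H81.NCH.Stmts
import Pool.Agent.H81.NCH.Base

/-!
# NCH, module GST: good states
-/

set_option autoImplicit false

namespace Pool.Agent.H81.NCH

namespace GST

theorem inside_big (e i x : ℕ) (hx : x < 512) : Inside e i (e + 9) (512 * i + x) := by
  refine ⟨by omega, ?_⟩
  have h1 : e + 9 - e = 9 := by omega
  rw [h1]
  norm_num
  omega

theorem An_anti (h m e i : ℕ) {a a' : ℕ} (ha : a ≤ a') : An h m e i a' ≤ An h m e i a := by
  unfold An
  apply Finset.card_le_card
  intro D hD
  rw [Finset.mem_filter] at hD ⊢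
  exact ⟨hD.1, hD.2.1, by omega⟩

theorem Bn_mono (h m e i : ℕ) {b b' : ℕ} (hb : b ≤ b') : Bn h m e i b ≤ Bn h m e i b' := by
  unfold Bn
  apply Finset.card_le_card
  intro D hD
  rw [Finset.mem_filter] at hD ⊢
  exact ⟨hD.1, hD.2.1, by omega⟩

end GST

/-- GST -/
theorem gst_thm : GSTStmt := by
  intro h m r g e i a b _
  constructor
  · intro he hi ha hb hbd hg
    refine ⟨he, hi, hbd, a, b, 0, 0, le_rfl, le_rfl, hbd, hg, by omega, ?_, ?_, ?_, ?_⟩
    · have h1 := core_nested (h := h) (m := m) (GST.inside_big e i 0 (by omega)) (by omega)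
      exact ha.trans h1.1
    · have h1 := core_nested (h := h) (m := m) (GST.inside_big e i (511 - 0) (by omega)) (by omega)
      exact h1.2.trans hb
    · exact ⟨fun _ => 0, fun _ => 0, fun x hx => absurd hx (Nat.not_lt_zero x),
        fun x y _ hy => absurd hy (Nat.not_lt_zero y)⟩
    · exact ⟨fun _ => 0, fun _ => 0, fun x hx => absurd hx (Nat.not_lt_zero x),
        fun x y _ hy => absurd hy (Nat.not_lt_zero y)⟩
  · rintro ⟨he, hi, hbd, a0, b0, p, q, ha0, hb0, hb0d, hg, hpq, ha, hb, _, _⟩
    constructor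
    · have h1 := cs_lt_ce (h := h) (m := m) (e := e + 9) (by omega) (512 * i + p)
      have h2 := cs_lt_ce (h := h) (m := m) (e := e + 9) (by omega) (512 * i + (511 - q))
      have h3 := (GST.inside_big e i (511 - q) (by omega)).lt_pow hi
      have h4 := disjoint_same (h := h) (m := m) (e := e + 9) (i := 512 * i + p)
        (i' := 512 * i + (511 - q)) (by omega) (by omega) (by omega) h3
      have h5 := ce_le_en (h := h) (m := m) (e + 9) (512 * i + p)
      have h6 := st_le_cs (h := h) (m := m) (e + 9) (512 * i + (511 - q))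
      omega
    · have h1 := GST.An_anti h m e i ha0
      have h2 := GST.Bn_mono h m e i hb0
      unfold Pot at hg ⊢
      omega

end Pool.Agent.H81.NCH
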