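import Pool.Agent.H81.NCH.Stmts
import Pool.Agent.H81.NCH.Base

/-!
# NCH, module KPB: linear approximations of `kap`
-/

set_option autoImplicit false

namespace Pool.Agent.H81.NCH

namespace KPB

/-- number of `s < t` with `j ≤ s % N` -/
def C (N j t : ℕ) : ℕ := ((Finset.range t).filter (fun s => j ≤ s % N)).card

theorem C_zero (N j : ℕ) : C N j 0 = 0 := by
  unfold C
  simp

theorem C_succ (N j t : ℕ) : C N j (t + 1) = C N j t + (if j ≤ t % N then 1 else 0) := by
  unfold C
  rw [Finset.range_add_one, Finset.filter_insert]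
  split_ifs with h1
  · rw [Finset.card_insert_of_notMem (by simp)]
  · rfl

theorem C_formula (N j : ℕ) (hj : j < N) (t : ℕ) :
    (N : ℤ) * C N j t = ((N : ℤ) - j) * t + N * ((t % N - j : ℕ) : ℤ) -
      ((t % N : ℕ) : ℤ) * ((N : ℤ) - j) := by
  induction t with
  | zero => rw [C_zero]; simp
  | succ t ih =>
    rw [C_succ]
    have hb : t % N < N := Nat.mod_lt _ (by omega)
    have hm : (t + 1) % N = if t % N + 1 = N then 0 else t % N + 1 := by
      rw [Nat.add_mod]
      by_cases h1 : t % N + 1 = N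
      · rw [if_pos h1]
        rcases Nat.lt_or_ge 1 N with h2 | h2
        · rw [Nat.mod_eq_of_lt h2, h1, Nat.mod_self]
        · have h3 : N = 1 := by omega
          rw [h3]
          omega
      · rw [if_neg h1]
        rw [Nat.mod_eq_of_lt (show 1 < N by omega), Nat.mod_eq_of_lt (by omega)]
    rw [hm]
    by_cases h1 : t % N + 1 = N
    · rw [if_pos h1]
      have h2 : j ≤ t % N := by omega
      rw [if_pos h2]
      have h3 : ((t % N - j : ℕ) : ℤ) = ((t % N : ℕ) : ℤ) - j := by
        push_cast [h2]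
        ring
      have h4 : ((t % N : ℕ) : ℤ) = (N : ℤ) - 1 := by
        have : ((t % N + 1 : ℕ) : ℤ) = N := by rw [h1]
        push_cast at this ⊢
        linarith
      rw [h3, h4] at ih
      simp only [Nat.zero_sub, Nat.cast_zero]
      push_cast
      linear_combination ih
    · rw [if_neg h1]
      by_cases h2 : j ≤ t % N
      · rw [if_pos h2]
        have h3 : ((t % N - j : ℕ) : ℤ) = ((t % N : ℕ) : ℤ) - j := by
          push_cast [h2]
          ring
        have h4 : ((t % N + 1 - j : ℕ) : ℤ) = ((t % N : ℕ) : ℤ) + 1 - j := by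
          rw [Nat.cast_sub (by omega)]
          push_cast
          ring
        rw [h3] at ih
        rw [h4]
        push_cast at ih ⊢
        linear_combination ih
      · rw [if_neg h2]
        have h3 : t % N - j = 0 := by omega
        have h4 : t % N + 1 - j = 0 := by omega
        rw [h3] at ih
        rw [h4]
        push_cast at ih ⊢
        linear_combination ih

theorem C_bound (N j : ℕ) (hj : j < N) (t : ℕ) :
    |(N : ℤ) * C N j t - ((N : ℤ) - j) * t| ≤ (N : ℤ) ^ 2 := by
  rw [C_formula N j hj t]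
  have hb : t % N < N := Nat.mod_lt _ (by omega)
  generalize t % N = b at hb
  have hbz : (b : ℤ) < N := by exact_mod_cast hb
  have hjz : (j : ℤ) < N := by exact_mod_cast hj
  have hb0 : (0 : ℤ) ≤ b := by positivity
  have hj0 : (0 : ℤ) ≤ j := by positivity
  rw [abs_le]
  by_cases h2 : j ≤ b
  · have h3 : ((b - j : ℕ) : ℤ) = (b : ℤ) - j := by
      push_cast [h2]
      ring
    rw [h3]
    constructor <;> nlinarith
  · have h3 : b - j = 0 := by omega
    rw [h3]
    push_cast
    constructor <;> nlinarith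

theorem C_mul (N j : ℕ) (hj : j < N) (q : ℕ) :
    (N : ℤ) * C N j (N * q) = ((N : ℤ) - j) * ((N * q : ℕ) : ℤ) := by
  rw [C_formula N j hj]
  rw [Nat.mul_mod_right]
  simp

theorem kap_succ (h m e i r t : ℕ) :
    kap h m e i r (t + 1) = kap h m e i r t + (if Kept h m e i r t then 1 else 0) := by
  unfold kap
  rw [Finset.range_add_one, Finset.filter_insert]
  split_ifs with h1
  · rw [Finset.card_insert_of_notMem (by simp)]
  · rfl

theorem kap_zero (h m e i r : ℕ) : kap h m e i r 0 = 0 := by
  unfold kap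
  simp

theorem kap_pre (h m e i r t : ℕ) (ht : t ≤ NN h * r) (hr : r ≤ m) :
    kap h m e i r t = C (NN h) (2 ^ e + i + 2 ^ (h + 1)) t := by
  unfold kap C
  congr 1
  apply Finset.filter_congr
  intro s hs
  rw [Finset.mem_range] at hs
  have h1 : NN h * r ≤ NH h m e := by
    unfold NH HH
    apply Nat.mul_le_mul_left
    have h2 : 1 ≤ 4 ^ (h - e) := Nat.one_le_pow _ _ (by norm_num)
    nlinarith
  have h2 : s < NH h m e := by omega
  have h3 : s / NN h < r := by
    rw [Nat.div_lt_iff_lt_mul (NN_pos h)]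
    rw [mul_comm]
    omega
  unfold Kept
  rw [if_pos h3]
  constructor
  · rintro (h4 | h4)
    · exact h4.2
    · omega
  · intro h4
    exact Or.inl ⟨h2, h4⟩

theorem kap_low (h m e i t : ℕ) (ht : t ≤ NH h m e) :
    kap h m e i 0 t = C (NN h) (2 ^ e + i) t := by
  unfold kap C
  congr 1
  apply Finset.filter_congr
  intro s hs
  rw [Finset.mem_range] at hs
  have h2 : s < NH h m e := by omega
  unfold Kept
  rw [if_neg (Nat.not_lt_zero _)]
  constructor
  · rintro (h4 | h4)
    · exact h4.2
    · omega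
  · intro h4
    exact Or.inl ⟨h2, h4⟩

theorem kap_high (h m e i t : ℕ) :
    kap h m e i 0 (NH h m e + 1 + t) =
      C (NN h) (2 ^ e + i) (NH h m e) + C (NN h) (2 ^ e + i) t := by
  induction t with
  | zero =>
    rw [C_zero, add_zero, add_zero, kap_succ, if_neg (by unfold Kept; omega),
      kap_low h m e i _ le_rfl, add_zero]
  | succ t ih =>
    rw [← add_assoc, kap_succ, ih, C_succ, ← add_assoc]
    congr 1
    have h1 : Kept h m e i 0 (NH h m e + 1 + t) ↔ 2 ^ e + i ≤ t % NN h := by
      unfold Kept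
      have h2 : NH h m e + 1 + t - NH h m e - 1 = t := by omega
      rw [h2]
      constructor
      · rintro (h4 | h4)
        · omega
        · exact h4.2
      · intro h4
        exact Or.inr ⟨by omega, h4⟩
    by_cases h3 : 2 ^ e + i ≤ t % NN h
    · rw [if_pos h3, if_pos (h1.2 h3)]
    · rw [if_neg h3, if_neg (fun h4 => h3 (h1.1 h4))]

end KPB

/-- KPB -/
theorem kpb_thm : KPBStmt := by
  intro h m e i he hi
  have hpow : 2 ^ e ≤ 2 ^ h := Nat.pow_le_pow_right (by norm_num) he
  have hN : NN h = 8 * 2 ^ h := by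
    unfold NN
    rw [pow_add]
    ring
  have hN1 : 2 ^ (h + 1) = 2 * 2 ^ h := by
    rw [pow_add]
    ring
  have hp : 0 < 2 ^ h := by positivity
  have hj : 2 ^ e + i < NN h := by omega
  have hj' : 2 ^ e + i + 2 ^ (h + 1) < NN h := by omega
  refine ⟨?_, ?_⟩
  · intro r t ht hr
    rw [KPB.kap_pre h m e i r t ht hr]
    have h1 := KPB.C_bound (NN h) (2 ^ e + i + 2 ^ (h + 1)) hj' t
    have h2 : ((NN h : ℤ) - ((2 ^ e + i + 2 ^ (h + 1) : ℕ) : ℤ)) =
        (NN h : ℤ) - 2 ^ e - i - 2 ^ (h + 1) := by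
      push_cast
      ring
    rw [h2] at h1
    exact h1
  · intro t
    have h2 : ((NN h : ℤ) - ((2 ^ e + i : ℕ) : ℤ)) = (NN h : ℤ) - 2 ^ e - i := by
      push_cast
      ring
    have hNpos : (1 : ℤ) ≤ NN h := by exact_mod_cast NN_pos h
    rcases Nat.lt_or_ge (NH h m e) t with ht | ht
    · obtain ⟨t', rfl⟩ : ∃ t', t = NH h m e + 1 + t' := ⟨t - (NH h m e + 1), by omega⟩
      rw [KPB.kap_high]
      have h3 := KPB.C_bound (NN h) (2 ^ e + i) hj t'
      have h4 : (NN h : ℤ) * KPB.C (NN h) (2 ^ e + i) (NH h m e) =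
          ((NN h : ℤ) - ((2 ^ e + i : ℕ) : ℤ)) * (NH h m e : ℤ) :=
        KPB.C_mul (NN h) (2 ^ e + i) hj (HH m (h - e))
      rw [h2] at h3 h4
      rw [abs_le] at h3 ⊢
      have h5 : (0 : ℤ) ≤ (NN h : ℤ) - 2 ^ e - i := by
        rw [← h2]
        have : ((2 ^ e + i : ℕ) : ℤ) < (NN h : ℤ) := by exact_mod_cast hj
        linarith
      have h6 : (NN h : ℤ) - 2 ^ e - i ≤ NN h := by
        have : (0 : ℤ) ≤ 2 ^ e := by positivity
        have : (0 : ℤ) ≤ i := by positivity
        linarith
      have h7 : (NN h : ℤ) ≤ (NN h : ℤ) ^ 2 := by nlinarith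
      push_cast
      constructor <;> nlinarith [h3.1, h3.2]
    · rw [KPB.kap_low h m e i t ht]
      have h3 := KPB.C_bound (NN h) (2 ^ e + i) hj t
      rw [h2] at h3
      refine h3.trans ?_
      nlinarith [sq_nonneg (NN h : ℤ)]

end Pool.Agent.H81.NCH
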