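import Pool.Agent.H81.NCH.Stmts
import Pool.Agent.H81.NCH.Base

/-!
# NCH, module LMD: the label level in the walls
-/

set_option autoImplicit false

namespace Pool.Agent.H81.NCH

namespace LMD

/-- a point near the middle of `(u, x)` which lies in a closed wall of `(e, i)`: the node `(e, i)`
is a child of `(u, x)` -/
theorem main {h m e i u x t : ℕ} (he1 : 1 ≤ e) (he : e ≤ h) (hi : i < 2 ^ e)
    (hu : u < h) (hx : x < 2 ^ u)
    (h1 : md h m u x ≤ t + NH h m (u + 1)) (h2 : t ≤ md h m u x + NH h m (u + 1))
    (hw : (st h m e i ≤ t ∧ t ≤ cs h m e i) ∨ (ce h m e i ≤ t ∧ t ≤ en h m e i)) :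
    (i % 2 = 0 ∧ en h m e i = md h m u x ∧ e = u + 1 ∧ ce h m e i ≤ t) ∨
      (i % 2 = 1 ∧ st h m e i = md h m u x ∧ e = u + 1 ∧ t ≤ cs h m e i) := by
  have hW : Wd h m (h - (u + 1)) = 2 * NH h m (u + 1) + 1 := Wd_eq h m (u + 1)
  have hL := Ln_eq h m (h - (u + 1))
  have hmd := md_def (h := h) (m := m) u x
  have hcm := ce_eq_md (h := h) (m := m) hu x
  have hcs : cs h m u x < t := by omega
  have hce : t < ce h m u x := by omega
  have hst : st h m e i ≤ t := by
    rcases hw with hw | hw
    · exact hw.1
    · have := st_le_cs (h := h) (m := m) e i
      have := cs_le_ce (h := h) (m := m) e i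
      omega
  have hen : t ≤ en h m e i := by
    rcases hw with hw | hw
    · have := ce_le_en (h := h) (m := m) e i
      have := cs_le_ce (h := h) (m := m) e i
      omega
    · exact hw.2
  by_cases hA : Inside e i u x
  · -- `(u, x)` inside `(e, i)`
    have h3 := core_nested (h := h) (m := m) hA (by omega)
    rcases hw with hw | hw <;> omega
  · by_cases hB : Inside u x e i
    · have hlt : u < e := by
        rcases Nat.lt_or_ge u e with h4 | h4
        · exact h4
        · exfalso
          have h5 : u = e := le_antisymm hB.1 h4
          subst h5
          have h6 := hB.2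
          simp at h6
          exact hA (h6 ▸ Inside.refl _ _)
      rcases Nat.lt_or_ge (u + 1) e with h4 | h4
      · -- strictly inside a child
        exfalso
        set y := i / 2 ^ (e - (u + 1)) with hy
        have hC : Inside (u + 1) y e i := ⟨by omega, rfl⟩
        have h5 := nested (h := h) (m := m) hC h4 he
        have hyx : y / 2 = x := by
          have h6 := hB.2
          rw [hy, Nat.div_div_eq_div_mul, ← pow_succ]
          have h7 : e - (u + 1) + 1 = e - u := by omega
          rw [h7]
          exact h6
        have h8 : y = 2 * x ∨ y = 2 * x + 1 := by omega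
        have h9 := cs_eq_st (h := h) (m := m) (e := u + 1) (by omega) y
        have h10 := en_def (h := h) (m := m) (u + 1) y
        rcases h8 with h8 | h8
        · rw [h8] at h5 h10
          have h11 := en_left (h := h) (m := m) u x
          omega
        · rw [h8] at h5 h9
          have h11 := st_right (h := h) (m := m) u x
          omega
      · have h5 : e = u + 1 := by omega
        subst h5
        have hyx : i / 2 = x := by
          have h6 := hB.2
          have h7 : u + 1 - u = 1 := by omega
          rw [h7, pow_one] at h6
          exact h6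
        have h8 : i = 2 * x ∨ i = 2 * x + 1 := by omega
        have h9 := cs_eq_st (h := h) (m := m) (e := u + 1) (by omega) i
        have h10 := en_def (h := h) (m := m) (u + 1) i
        have h12 := cs_le_ce (h := h) (m := m) (u + 1) i
        rcases h8 with h8 | h8
        · left
          have h11 := en_left (h := h) (m := m) u x
          rw [← h8] at h11
          refine ⟨by omega, h11, rfl, ?_⟩
          rcases hw with hw | hw
          · omega
          · exact hw.1
        · right
          have h11 := st_right (h := h) (m := m) u x
          rw [← h8] at h11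
          refine ⟨by omega, h11, rfl, ?_⟩
          rcases hw with hw | hw
          · exact hw.2
          · omega
    · -- incomparable
      exfalso
      have hu1 : 1 ≤ u := by
        rcases Nat.eq_zero_or_pos u with h0 | h0
        · exfalso
          subst h0
          have hx0 : x = 0 := by simpa using hx
          subst hx0
          exact hB (inside_root hi)
        · exact h0
      have h3 := idx_other (h := h) (m := m) hu1 (by omega) hx he1 he hi hB hA hst hen
      have h4 := idx_core (h := h) (m := m) hu1 hcs.le hce.le
      have h5 := Wd_pos h m (h - u)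
      omega

end LMD

/-- LMD -/
theorem lmd_thm : LMDStmt := by
  intro h m e i t _ he1 he hi
  obtain ⟨e, rfl⟩ : ∃ e', e = e' + 1 := ⟨e - 1, by omega⟩
  have hi2 : i / 2 < 2 ^ e := by
    rw [pow_succ] at hi
    omega
  have hW : Wd h m (h - (e + 1)) = 2 * NH h m (e + 1) + 1 := Wd_eq h m (e + 1)
  have h9 := cs_eq_st (h := h) (m := m) (e := e + 1) (by omega) i
  have h10 := en_def (h := h) (m := m) (e + 1) i
  have h12 := cs_le_ce (h := h) (m := m) (e + 1) i
  constructor
  · intro h1 h2
    constructor
    · rintro ⟨u, x, hu, hx, h3, h4⟩
      rcases LMD.main he1 he hi hu hx h3 h4 (Or.inl ⟨h1, h2⟩) with h5 | h5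
      · have h6 : u = e := by omega
        subst h6
        omega
      · have h6 : u = e := by omega
        subst h6
        exact ⟨h5.1, by omega⟩
    · rintro ⟨h3, h4⟩
      refine ⟨e, i / 2, by omega, hi2, ?_, ?_⟩
      · have h5 := st_right (h := h) (m := m) e (i / 2)
        have h6 : 2 * (i / 2) + 1 = i := by omega
        rw [h6] at h5
        omega
      · have h5 := st_right (h := h) (m := m) e (i / 2)
        have h6 : 2 * (i / 2) + 1 = i := by omega
        rw [h6] at h5
        omega
  · intro h1 h2
    constructor
    · rintro ⟨u, x, hu, hx, h3, h4⟩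
      rcases LMD.main he1 he hi hu hx h3 h4 (Or.inr ⟨h1, h2⟩) with h5 | h5
      · have h6 : u = e := by omega
        subst h6
        exact ⟨h5.1, by omega⟩
      · have h6 : u = e := by omega
        subst h6
        omega
    · rintro ⟨h3, h4⟩
      refine ⟨e, i / 2, by omega, hi2, ?_, ?_⟩
      · have h5 := en_left (h := h) (m := m) e (i / 2)
        have h6 : 2 * (i / 2) = i := by omega
        rw [h6] at h5
        omega
      · have h5 := en_left (h := h) (m := m) e (i / 2)
        have h6 : 2 * (i / 2) = i := by omega
        rw [h6] at h5
        omega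

end Pool.Agent.H81.NCH
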