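import Pool.Agent.H81.NCH.Stmts
import Pool.Agent.H81.NCH.Base

/-!
# NCH, module SIZ: sizes
-/

set_option autoImplicit false

namespace Pool.Agent.H81.NCH

namespace SIZ

theorem Wd_form (h m k : ℕ) : Wd h m k = 8 * (NN h * m) * 4 ^ k + 1 := by
  unfold Wd HH
  ring

theorem Wd_ge (h m k : ℕ) : 8 * (NN h * m) + 1 ≤ Wd h m k := by
  rw [Wd_form]
  have h1 : 1 ≤ 4 ^ k := Nat.one_le_pow _ _ (by norm_num)
  have h2 : 8 * (NN h * m) * 1 ≤ 8 * (NN h * m) * 4 ^ k := Nat.mul_le_mul_left _ h1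
  omega

theorem Ln_le (h m : ℕ) (hm : 1 ≤ m) (k : ℕ) : Ln h m k + 2 ≤ 4 ^ k * (32 * (NN h * m)) := by
  have hN := NN_pos h
  have h0 : 1 ≤ NN h * m := Nat.mul_pos hN hm
  induction k with
  | zero =>
    have h1 : Ln h m 0 = 2 * Wd h m 0 := rfl
    rw [h1, Wd_form]
    simp only [pow_zero]
    omega
  | succ k ih =>
    have h1 : Ln h m (k + 1) = 2 * Wd h m (k + 1) + 2 * Ln h m k := rfl
    rw [h1, Wd_form, pow_succ]
    generalize 4 ^ k = X at *
    generalize NN h * m = Y at *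
    nlinarith

end SIZ

/-- SIZ -/
theorem siz_thm : SIZStmt := by
  intro h m hh hm
  refine ⟨?_, ?_, ?_⟩
  · obtain ⟨k, rfl⟩ : ∃ k, h = k + 1 := ⟨h - 1, by omega⟩
    have h1 : dd (k + 1) m = 2 * Ln (k + 1) m k := rfl
    have h2 := SIZ.Ln_le (k + 1) m hm k
    rw [h1, pow_succ]
    nlinarith
  · intro e i he
    rw [ce_def, Cr_of_lt he, Ln_eq]
    have h1 := SIZ.Wd_ge h m (h - (e + 1))
    omega
  · intro e i _
    have hsub : nds h e i ⊆ (Finset.range (h + 1)) ×ˢ (Finset.range (2 ^ h)) := by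
      classical
      unfold nds
      exact Finset.filter_subset _ _
    refine (Finset.card_le_card hsub).trans ?_
    rw [Finset.card_product, Finset.card_range, Finset.card_range]
    have h1 : h + 1 ≤ 2 ^ h := Nat.lt_two_pow_self
    calc (h + 1) * 2 ^ h ≤ 2 ^ h * 2 ^ h := Nat.mul_le_mul_right _ h1
      _ = 2 ^ (2 * h) := by rw [two_mul, pow_add]

end Pool.Agent.H81.NCH
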