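import Pool.Agent.H81.NCH.Stmts
import Pool.Agent.H81.NCH.Base

/-!
# NCH, module WTS: the weights of the letters
-/

set_option autoImplicit false

namespace Pool.Agent.H81.NCH

namespace WTS

theorem kap_succ (h m e i r t : ℕ) :
    kap h m e i r (t + 1) = kap h m e i r t + (if Kept h m e i r t then 1 else 0) := by
  unfold kap
  rw [Finset.range_add_one, Finset.filter_insert]
  split_ifs with h1
  · rw [Finset.card_insert_of_notMem (by simp)]
  · rfl

theorem not_kept_slot (h m e i r : ℕ) : ¬ Kept h m e i r (NH h m e) := by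
  unfold Kept
  omega

/-- difference of the label levels -/
theorem lam_sub {h m t t' : ℕ} {P P' : Prop} [Decidable P] [Decidable P']
    (h1 : LamP h m t ↔ P) (h2 : LamP h m t' ↔ P') :
    lam h m t' - lam h m t = (if P' then 1 else 0) - (if P then 1 else 0) := by
  unfold lam
  congr 1
  · by_cases h3 : P'
    · rw [if_pos h3, if_pos (h2.2 h3)]
    · rw [if_neg h3, if_neg (fun h4 => h3 (h2.1 h4))]
  · by_cases h3 : P
    · rw [if_pos h3, if_pos (h1.2 h3)]
    · rw [if_neg h3, if_neg (fun h4 => h3 (h1.1 h4))]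

/-- left wall -/
theorem left (hLVF : LVFStmt) (hLMD : LMDStmt) (h m : ℕ) (r : ℕ → ℕ → ℕ) (e i s : ℕ) (hm : 1 ≤ m)
    (he1 : 1 ≤ e) (he : e ≤ h) (hi : i < 2 ^ e) (hs : s < Wd h m (h - e)) :
    wt h m r (st h m e i + s) = 2 * sgn e i * (if Kept h m e i (r e i) s then 1 else 0) +
      ((if i % 2 = 1 ∧ s + 1 ≤ NH h m e then 1 else 0) -
        (if i % 2 = 1 ∧ s ≤ NH h m e then 1 else 0)) := by
  have h9 := cs_eq_st (h := h) (m := m) he1 i
  have hp1 := hLVF h m r e i (st h m e i + s) he1 he hi ⟨true, by simp [InWall]; omega⟩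
  have hp2 := hLVF h m r e i (st h m e i + s + 1) he1 he hi ⟨true, by simp [InWall]; omega⟩
  rw [idx_left he1 (by omega)] at hp1 hp2
  have e1 : st h m e i + s - st h m e i = s := by omega
  have e2 : st h m e i + s + 1 - st h m e i = s + 1 := by omega
  rw [e1] at hp1
  rw [e2, kap_succ] at hp2
  have hl1 := (hLMD h m e i (st h m e i + s) hm he1 he hi).1 (by omega) (by omega)
  have hl2 := (hLMD h m e i (st h m e i + s + 1) hm he1 he hi).1 (by omega) (by omega)
  have hl1' : LamP h m (st h m e i + s) ↔ i % 2 = 1 ∧ s ≤ NH h m e := by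
    rw [hl1]
    constructor <;> rintro ⟨a, b⟩ <;> exact ⟨a, by omega⟩
  have hl2' : LamP h m (st h m e i + s + 1) ↔ i % 2 = 1 ∧ s + 1 ≤ NH h m e := by
    rw [hl2]
    constructor <;> rintro ⟨a, b⟩ <;> exact ⟨a, by omega⟩
  have hl := lam_sub hl1' hl2'
  unfold wt psi
  rw [hp1, hp2, ← hl]
  push_cast
  ring

/-- right wall -/
theorem right (hLVF : LVFStmt) (hLMD : LMDStmt) (h m : ℕ) (r : ℕ → ℕ → ℕ) (e i s : ℕ) (hm : 1 ≤ m)
    (he1 : 1 ≤ e) (he : e ≤ h) (hi : i < 2 ^ e) (hs : s < Wd h m (h - e)) :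
    wt h m r (en h m e i - 1 - s) = -(2 * sgn e i * (if Kept h m e i (r e i) s then 1 else 0)) +
      ((if i % 2 = 0 ∧ s ≤ NH h m e then 1 else 0) -
        (if i % 2 = 0 ∧ s + 1 ≤ NH h m e then 1 else 0)) := by
  have h9 := en_def (h := h) (m := m) e i
  obtain ⟨t, ht⟩ : ∃ t, en h m e i = t + 1 + s := ⟨en h m e i - 1 - s, by omega⟩
  have e0 : en h m e i - 1 - s = t := by omega
  rw [e0]
  have hp1 := hLVF h m r e i t he1 he hi ⟨false, by simp [InWall]; omega⟩
  have hp2 := hLVF h m r e i (t + 1) he1 he hi ⟨false, by simp [InWall]; omega⟩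
  rw [idx_right he1 (by omega)] at hp1 hp2
  have e1 : en h m e i - t = s + 1 := by omega
  have e2 : en h m e i - (t + 1) = s := by omega
  rw [e1, kap_succ] at hp1
  rw [e2] at hp2
  have hl1 := (hLMD h m e i t hm he1 he hi).2 (by omega) (by omega)
  have hl2 := (hLMD h m e i (t + 1) hm he1 he hi).2 (by omega) (by omega)
  have hl1' : LamP h m t ↔ i % 2 = 0 ∧ s + 1 ≤ NH h m e := by
    rw [hl1]
    constructor <;> rintro ⟨a, b⟩ <;> exact ⟨a, by omega⟩
  have hl2' : LamP h m (t + 1) ↔ i % 2 = 0 ∧ s ≤ NH h m e := by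
    rw [hl2]
    constructor <;> rintro ⟨a, b⟩ <;> exact ⟨a, by omega⟩
  have hl := lam_sub hl1' hl2'
  unfold wt psi
  rw [hp1, hp2, ← hl]
  push_cast
  ring

end WTS

/-- WTS -/
theorem wts_thm (hLVF : LVFStmt) (hLMD : LMDStmt) : WTSStmt := by
  intro h m r e i hm he1 he hi
  have hW : Wd h m (h - e) = 2 * NH h m e + 1 := Wd_eq h m e
  refine ⟨?_, ?_, ?_⟩
  · intro s hs hne
    constructor
    · rw [WTS.left hLVF hLMD h m r e i s hm he1 he hi hs]
      have h1 : (i % 2 = 1 ∧ s + 1 ≤ NH h m e) ↔ (i % 2 = 1 ∧ s ≤ NH h m e) := by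
        constructor <;> rintro ⟨a, b⟩ <;> exact ⟨a, by omega⟩
      simp only [h1, sub_self, add_zero]
      split_ifs <;> ring
    · rw [WTS.right hLVF hLMD h m r e i s hm he1 he hi hs]
      have h1 : (i % 2 = 0 ∧ s + 1 ≤ NH h m e) ↔ (i % 2 = 0 ∧ s ≤ NH h m e) := by
        constructor <;> rintro ⟨a, b⟩ <;> exact ⟨a, by omega⟩
      simp only [h1, sub_self, add_zero]
      split_ifs <;> ring
  · rw [WTS.left hLVF hLMD h m r e i (NH h m e) hm he1 he hi (by omega)]
    rw [if_neg (WTS.not_kept_slot h m e i (r e i))]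
    have h1 : ¬ (i % 2 = 1 ∧ NH h m e + 1 ≤ NH h m e) := by omega
    rw [if_neg h1]
    by_cases h2 : i % 2 = 1
    · rw [if_pos ⟨h2, le_rfl⟩, if_pos h2]
      ring
    · rw [if_neg (fun h3 => h2 h3.1), if_neg h2]
      ring
  · rw [WTS.right hLVF hLMD h m r e i (NH h m e) hm he1 he hi (by omega)]
    rw [if_neg (WTS.not_kept_slot h m e i (r e i))]
    have h1 : ¬ (i % 2 = 0 ∧ NH h m e + 1 ≤ NH h m e) := by omega
    rw [if_neg h1]
    by_cases h2 : i % 2 = 1
    · rw [if_neg (fun h3 => by omega), if_pos h2]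
      ring
    · rw [if_pos ⟨by omega, le_rfl⟩, if_neg h2]
      ring

end Pool.Agent.H81.NCH
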